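import Pool.Agent.K1H54.GC.Stm3

/-! Piece MOM3 of the project GC (third part). -/

set_option autoImplicit false

namespace Pool.Agent.K1H59.GC

open Finset Pool.Agent.K1H54.GC

/-- the kernel of `m (m - h)` -/
def kk (t : ℕ × ℕ) : ℕ := t.1 * (t.1 - t.2) / (Nat.gcd t.1 (t.1 - t.2)) ^ 2

theorem kk_mul (t : ℕ × ℕ) : kk t * (Nat.gcd t.1 (t.1 - t.2)) ^ 2 = t.1 * (t.1 - t.2) := by
  unfold kk
  apply Nat.div_mul_cancel
  rw [sq]
  exact Nat.mul_dvd_mul (Nat.gcd_dvd_left _ _) (Nat.gcd_dvd_right _ _)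

/-- the coefficient -/
noncomputable def ct (t : ℕ × ℕ) : ℝ :=
  ((ArithmeticFunction.moebius t.1 : ℤ) : ℝ) *
    ((ArithmeticFunction.moebius (t.1 - t.2) : ℤ) : ℝ)

theorem sq1 {t : ℕ × ℕ} (h : ct t ≠ 0) : Squarefree t.1 := by
  rw [← ArithmeticFunction.moebius_ne_zero_iff_squarefree]
  intro h0
  apply h
  simp [ct, h0]

theorem sq2 {t : ℕ × ℕ} (h : ct t ≠ 0) : Squarefree (t.1 - t.2) := by
  rw [← ArithmeticFunction.moebius_ne_zero_iff_squarefree]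
  intro h0
  apply h
  simp [ct, h0]

theorem kk_sqf {t : ℕ × ℕ} (h : ct t ≠ 0) : Squarefree (kk t) := by
  have h1 := sq1 h
  have h2 := sq2 h
  obtain ⟨u, v, huv, hu, hv⟩ := Nat.exists_coprime t.1 (t.1 - t.2)
  have hg : 0 < Nat.gcd t.1 (t.1 - t.2) :=
    Nat.gcd_pos_of_pos_left _ (Nat.pos_of_ne_zero h1.ne_zero)
  have hk : kk t = u * v := by
    have h3 := kk_mul t
    apply Nat.eq_of_mul_eq_mul_right (pow_pos hg 2)
    rw [h3]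
    calc t.1 * (t.1 - t.2) = (u * Nat.gcd t.1 (t.1 - t.2)) * (v * Nat.gcd t.1 (t.1 - t.2)) :=
          congrArg₂ (· * ·) hu hv
      _ = u * v * Nat.gcd t.1 (t.1 - t.2) ^ 2 := by ring
  rw [hk]
  exact (Nat.squarefree_mul huv).mpr
    ⟨h1.squarefree_of_dvd ⟨_, hu⟩, h2.squarefree_of_dvd ⟨_, hv⟩⟩

theorem abs_ct (t : ℕ × ℕ) : |ct t| ≤ 1 := by
  unfold ct
  rw [abs_mul]
  have h1 : |((ArithmeticFunction.moebius t.1 : ℤ) : ℝ)| ≤ 1 := by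
    exact_mod_cast ArithmeticFunction.abs_moebius_le_one (n := t.1)
  have h2 : |((ArithmeticFunction.moebius (t.1 - t.2) : ℤ) : ℝ)| ≤ 1 := by
    exact_mod_cast ArithmeticFunction.abs_moebius_le_one (n := t.1 - t.2)
  exact mul_le_one₀ h1 (abs_nonneg _) h2

theorem js_eq {p : ℕ} (hp : p.Prime) {j : ℕ} (hj : j < p) {t : ℕ × ℕ} (h1 : 1 ≤ t.2)
    (h2 : t.2 ≤ j) (h3 : j < t.1) :
    jacobiSym ((t.1 : ℤ) * ((t.1 - t.2 : ℕ) : ℤ)) p = jacobiSym (kk t : ℤ) p := by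
  have e : (t.1 : ℤ) * ((t.1 - t.2 : ℕ) : ℤ) =
      (kk t : ℤ) * ((Nat.gcd t.1 (t.1 - t.2) : ℕ) : ℤ) ^ 2 := by
    exact_mod_cast (kk_mul t).symm
  have hg : Nat.gcd t.1 (t.1 - t.2) ∣ t.2 := by
    have h4 := Nat.dvd_sub (Nat.gcd_dvd_left t.1 (t.1 - t.2)) (Nat.gcd_dvd_right t.1 (t.1 - t.2))
    have e2 : t.1 - (t.1 - t.2) = t.2 := by omega
    rwa [e2] at h4
  have hle : Nat.gcd t.1 (t.1 - t.2) ≤ t.2 := Nat.le_of_dvd h1 hg
  have hpos : 0 < Nat.gcd t.1 (t.1 - t.2) := Nat.gcd_pos_of_pos_left _ (by omega)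
  have hc : ((Nat.gcd t.1 (t.1 - t.2) : ℕ) : ℤ).gcd (p : ℤ) = 1 := by
    rw [Int.gcd_natCast_natCast]
    apply Nat.Coprime.symm
    rw [Nat.Prime.coprime_iff_not_dvd hp]
    intro hd
    have h5 := Nat.le_of_dvd hpos hd
    omega
  rw [e, jacobiSym.mul_left, jacobiSym.pow_left, jacobiSym.sq_one hc, mul_one]

theorem t_MOM3 (hD : S_DUAL) (hS : S_SQC) : S_MOM3 := by
  classical
  intro η hη
  obtain ⟨C1, hC1, H1⟩ := hD η hη
  obtain ⟨C2, hC2, H2⟩ := hS η hη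
  refine ⟨C1 * C2, mul_nonneg hC1 hC2, fun Q U1 U2 j hQ hj => ?_⟩
  obtain ⟨B, hB⟩ : ∃ B, B = U2 + j := ⟨_, rfl⟩
  obtain ⟨T, hT⟩ : ∃ T : Finset (ℕ × ℕ),
    T = (Ioc (U1 + j) (U2 + j) ×ˢ Icc 1 j).filter (fun t => ct t ≠ 0) := ⟨_, rfl⟩
  obtain ⟨b, hb⟩ : ∃ b : ℕ → ℝ, b = fun k => ∑ t ∈ T.filter (fun t => kk t = k), ct t := ⟨_, rfl⟩
  have hmem : ∀ t ∈ T, (U1 + j < t.1 ∧ t.1 ≤ U2 + j) ∧ (1 ≤ t.2 ∧ t.2 ≤ j) ∧ ct t ≠ 0 := by
    intro t ht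
    rw [hT, mem_filter, mem_product, mem_Ioc, mem_Icc] at ht
    exact ⟨ht.1.1, ht.1.2, ht.2⟩
  have hmaps : ∀ t ∈ T, kk t ∈ (Icc 1 (B ^ 2)).filter (fun k => Squarefree k) := by
    intro t ht
    obtain ⟨⟨h1, h2⟩, ⟨h3, h4⟩, h5⟩ := hmem t ht
    have hs := kk_sqf h5
    rw [mem_filter, mem_Icc]
    refine ⟨⟨Nat.pos_of_ne_zero hs.ne_zero, ?_⟩, hs⟩
    calc kk t ≤ t.1 * (t.1 - t.2) := Nat.div_le_self _ _
      _ ≤ B * B := Nat.mul_le_mul (by omega) (by omega)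
      _ = B ^ 2 := (sq B).symm
  have hz : ∀ p : ℕ, p.Prime → j < p → zq p U1 U2 j =
      ∑ k ∈ (Icc 1 (B ^ 2)).filter (fun k => Squarefree k), b k * (jacobiSym (k : ℤ) p : ℝ) := by
    intro p hp hjp
    have e1 : zq p U1 U2 j = ∑ t ∈ T, ct t * (jacobiSym (kk t : ℤ) p : ℝ) := by
      unfold zq
      rw [hT, Finset.sum_filter]
      apply Finset.sum_congr rfl
      intro t ht
      rw [mem_product, mem_Ioc, mem_Icc] at ht
      split_ifs with h0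
      · rw [js_eq hp hjp ht.2.1 ht.2.2 (by omega)]
        rfl
      · have h6 : ct t = 0 := not_not.mp h0
        change ct t * _ = 0
        rw [h6, zero_mul]
    rw [e1, ← Finset.sum_fiberwise_of_maps_to hmaps]
    apply Finset.sum_congr rfl
    intro k _
    rw [hb, Finset.sum_mul]
    apply Finset.sum_congr rfl
    intro t ht
    rw [(mem_filter.mp ht).2]
  have hbr : ∀ k, (b k) ^ 2 ≤ ((rr B j k : ℕ) : ℝ) ^ 2 := by
    intro k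
    have h1 : |b k| ≤ ((rr B j k : ℕ) : ℝ) := by
      rw [hb]
      refine le_trans (Finset.abs_sum_le_sum_abs _ _) ?_
      refine le_trans (Finset.sum_le_sum fun t _ => abs_ct t) ?_
      rw [Finset.sum_const, nsmul_eq_mul, mul_one]
      unfold rr
      apply Nat.cast_le.mpr
      apply Finset.card_le_card
      intro t ht
      rw [mem_filter] at ht
      obtain ⟨⟨h1, h2⟩, ⟨h3, h4⟩, h5⟩ := hmem t ht.1
      rw [mem_filter, mem_product, mem_Icc, mem_Icc]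
      refine ⟨⟨⟨by omega, by omega⟩, h3, h4⟩, by omega, ?_⟩
      rw [← ht.2]
      exact (kk_mul t).symm
    rw [← sq_abs (b k)]
    exact pow_le_pow_left₀ (abs_nonneg _) h1 2
  have hsum : ∑ k ∈ (Icc 1 (B ^ 2)).filter (fun k => Squarefree k), (b k) ^ 2 ≤
      C2 * ((B : ℝ) * j) ^ (1 + η) := by
    refine le_trans ?_ (H2 B j hj (by omega))
    refine le_trans (Finset.sum_le_sum fun k _ => hbr k) ?_
    exact Finset.sum_le_sum_of_subset_of_nonneg (Finset.filter_subset _ _)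
      fun k _ _ => sq_nonneg _
  have hB1 : 1 ≤ B ^ 2 := Nat.one_le_pow _ _ (by omega)
  have h7 := H1 Q (B ^ 2) hQ hB1 b
  calc ∑ p ∈ (Icc 1 Q).filter (fun p => p.Prime ∧ p ≠ 2 ∧ j < p), (zq p U1 U2 j) ^ 2
      = ∑ p ∈ (Icc 1 Q).filter (fun p => p.Prime ∧ p ≠ 2 ∧ j < p),
        (∑ k ∈ (Icc 1 (B ^ 2)).filter (fun k => Squarefree k),
          b k * (jacobiSym (k : ℤ) p : ℝ)) ^ 2 := by
        apply Finset.sum_congr rfl
        intro p hp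
        rw [mem_filter] at hp
        rw [hz p hp.2.1 hp.2.2.2]
    _ ≤ ∑ p ∈ (Icc 1 Q).filter (fun p => p.Prime ∧ p ≠ 2),
        (∑ k ∈ (Icc 1 (B ^ 2)).filter (fun k => Squarefree k),
          b k * (jacobiSym (k : ℤ) p : ℝ)) ^ 2 := by
        apply Finset.sum_le_sum_of_subset_of_nonneg
        · intro p hp
          rw [mem_filter] at hp ⊢
          exact ⟨hp.1, hp.2.1, hp.2.2.1⟩
        · intro p _ _
          exact sq_nonneg _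
    _ ≤ C1 * ((Q : ℝ) * ((B ^ 2 : ℕ) : ℝ)) ^ η * ((Q : ℝ) + ((B ^ 2 : ℕ) : ℝ)) *
        ∑ k ∈ (Icc 1 (B ^ 2)).filter (fun k => Squarefree k), (b k) ^ 2 := h7
    _ ≤ C1 * ((Q : ℝ) * ((B ^ 2 : ℕ) : ℝ)) ^ η * ((Q : ℝ) + ((B ^ 2 : ℕ) : ℝ)) *
        (C2 * ((B : ℝ) * j) ^ (1 + η)) := by
        apply mul_le_mul_of_nonneg_left hsum
        positivity
    _ = C1 * C2 * ((Q : ℝ) * ((U2 + j : ℕ) : ℝ) ^ 2) ^ η * ((Q : ℝ) + ((U2 + j : ℕ) : ℝ) ^ 2) *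
      (((U2 + j : ℕ) : ℝ) * j) ^ (1 + η) := by
        rw [hB, Nat.cast_pow]
        ring

end Pool.Agent.K1H59.GC
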